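import Pool.Agent.Y699.R10
import Pool.Agent.Y699.Cls
import Pool.Agent.Y715.Z.Sel

/-!
# The Tate-Shafarevich groups of a positive proportion of the elliptic curves over `ℚ(i)` with
# `j`-invariant `1728`

`K` is a number field with an isomorphism `e` of the ring `ℤ[i]` of Gaussian integers with its ring
of integers (so `K = ℚ(i)`).  Every elliptic curve over `K` with `j = 1728` is isomorphic to
`E_D : y² = x³ + D x` for exactly one Gaussian integer `D` that no fourth power of a prime divides.  We
prove that for a positive proportion of all these `D`, ordered by norm, the 2-primary part of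
`Ш(E_D/K)` is trivial, `E_D(K)` has two elements, and `L(E_D/K, s)` is an entire function that does not
vanish at `s = 1` (so that, by the theorem of Rubin, which is not used, `Ш(E_D/K)` is finite).

The members of the positive proportion are squarefree `D ≡ 1 mod 2 + 2i` with `N(D) ≡ 13 mod 16`
for which a graph made from the quadratic residue symbols of the prime factors of `D` has an odd number of
spanning trees.  Both steps of the descent on `Ш[2]` are descents by the endomorphism `1 + i`, and at
each step the local conditions are the kernel of the Laplacian of that graph; at `1 + i` itself only the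
parity of the valuation matters.  The central values and the count are from the library of helper699,
the general descent by an isogeny of degree two from the library of helper682.
-/

set_option autoImplicit false

namespace Pool.Agent.Results.MP_78d38b_nt.PositiveProportionSha

open NumberField IsDedekindDomain

/-- `W v` is, for every finite place `v`, an integral model of `E` with discriminant minimal at
`v`. -/
def MinimalModels {K : Type} [Field K] [NumberField K] (E : WeierstrassCurve K)
    (W : HeightOneSpectrum (𝓞 K) → WeierstrassCurve (𝓞 K)) : Prop :=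
  ∀ v : HeightOneSpectrum (𝓞 K),
    (∃ C : WeierstrassCurve.VariableChange K, C • (W v).map (algebraMap (𝓞 K) K) = E) ∧
    ∀ W' : WeierstrassCurve (𝓞 K),
      (∃ C : WeierstrassCurve.VariableChange K, C • W'.map (algebraMap (𝓞 K) K) = E) →
      ∀ n : ℕ, (W v).Δ ∈ v.asIdeal ^ n → W'.Δ ∈ v.asIdeal ^ n

open Classical in
/-- The Euler factor at `v`, `(1 - a_v Nv^{-s} + Nv^{1-2s})⁻¹` if the reduction at `v` is good and
`(1 - a_v Nv^{-s})⁻¹` if it is bad, where `a_v` is `Nv` minus the number of affine points of the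
reduction of `W v`. -/
noncomputable def localFactor {K : Type} [Field K] [NumberField K]
    (W : HeightOneSpectrum (𝓞 K) → WeierstrassCurve (𝓞 K)) (v : HeightOneSpectrum (𝓞 K))
    (s : ℂ) : ℂ :=
  (1 - ((Ideal.absNorm v.asIdeal : ℂ)
        - (Nat.card {xy : (𝓞 K ⧸ v.asIdeal) × (𝓞 K ⧸ v.asIdeal) //
            ((W v).map (Ideal.Quotient.mk v.asIdeal)).toAffine.Equation xy.1 xy.2} : ℂ))
        * (Ideal.absNorm v.asIdeal : ℂ) ^ (-s)
    + (if (W v).Δ ∈ v.asIdeal then 0 else (Ideal.absNorm v.asIdeal : ℂ))
        * (Ideal.absNorm v.asIdeal : ℂ) ^ (-2 * s))⁻¹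

/-- The product of the Euler factors of `E` (for minimal models, `Re s > 3/2`) extends to an entire
function that does not vanish at `s = 1`. -/
def CentralValueNonzero {K : Type} [Field K] [NumberField K] (E : WeierstrassCurve K) : Prop :=
  (∃ W : HeightOneSpectrum (𝓞 K) → WeierstrassCurve (𝓞 K), MinimalModels E W) ∧
  ∃ L : ℂ → ℂ, Differentiable ℂ L ∧
    (∀ W : HeightOneSpectrum (𝓞 K) → WeierstrassCurve (𝓞 K), MinimalModels E W →
      ∀ s : ℂ, 3 / 2 < s.re → HasProd (fun v => localFactor W v s) (L s)) ∧
    L 1 ≠ 0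

/-- The curve `y² = x³ + D x`. -/
noncomputable def curve {K : Type} [Field K] [NumberField K] (e : GaussianInt ≃+* 𝓞 K)
    (D : GaussianInt) : WeierstrassCurve K :=
  ⟨0, 0, 0, algebraMap (𝓞 K) K (e D), 0⟩

/-- `D` is not zero and no fourth power of a prime divides it. -/
def FourthPowerFree (D : GaussianInt) : Prop := D ≠ 0 ∧ ∀ π : GaussianInt, Prime π → ¬ π ^ 4 ∣ D

/-- All the parameters `D` of norm at most `X`; each of them is one elliptic curve over `ℚ(i)` with
`j = 1728`, up to isomorphism. -/
def Family (X : ℕ) : Set GaussianInt := {D | FourthPowerFree D ∧ D.norm ≤ X}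

/-- The parameters `D` in `Family X` such that, for `K = ℚ(i)` (every number field `K` with an
isomorphism `e` of `ℤ[i]` with its ring of integers) and `E_D : y² = x³ + D x`, the group `Ш(E_D/K)` has
no nonzero element killed by a power of two, `E_D(K)` has exactly two elements, and the central value
of the `L`-function of `E_D/K` is not zero. -/
def Proved (X : ℕ) : Set GaussianInt :=
  {D | D ∈ Family X ∧
    ∀ (K : Type) [Field K] [NumberField K] (e : GaussianInt ≃+* 𝓞 K),
      (∀ (n : ℕ) (x : Pool.Agent.TH841.NF.D.Sha (curve e D)), 2 ^ n • x = 0 → x = 0) ∧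
      Nat.card (curve e D).toAffine.Point = 2 ∧ CentralValueNonzero (curve e D)}

/-- The criterion. -/
theorem curve_good {D : GaussianInt} (hg : Pool.Agent.Y699.Good4 D) (K : Type) [Field K]
    [NumberField K] (e : GaussianInt ≃+* 𝓞 K) :
    (∀ (n : ℕ) (x : Pool.Agent.TH841.NF.D.Sha (curve e D)), 2 ^ n • x = 0 → x = 0) ∧
      Nat.card (curve e D).toAffine.Point = 2 ∧ CentralValueNonzero (curve e D) := by
  have hre := (Pool.Agent.Y699.comp_mod hg.ps.prm hg.nm).1
  have hc : Nat.card (curve e D).toAffine.Point = 2 :=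
    Pool.Agent.Y699.card_pts4 (Pool.Agent.Y699.neg_not_sq hg e) two_ne_zero
      (fun x y h => Pool.Agent.Y699.crit_pts4 hg e h)
  have hD0 : algebraMap (𝓞 K) K (e D) ≠ 0 := Pool.Agent.Y715.Z.em0_ne e hg.ps.ne
  have hT : Pool.Agent.Y682.IsT (curve e D) 0 (Pool.Agent.Y715.Z.em0 e D) :=
    { h1 := rfl, h2 := rfl, h3 := rfl, h4 := rfl, h6 := rfl, hB := hD0
      hD := by
        rw [zero_pow two_ne_zero, zero_sub, neg_ne_zero]
        exact mul_ne_zero (by norm_num) hD0 }
  obtain ⟨L, hL1, hL2, hL3⟩ := Pool.Agent.Y699.crit_L4 hg e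
  refine ⟨fun n x hx => Pool.Agent.Y715.Z.sha_pow e hg hT n x hx, hc,
    ⟨fun _ => Pool.Agent.Y699.cr4 (e D), fun v => Pool.Agent.Y699.cr4_min e hg.ps hre v⟩,
    L, hL1, fun W hW s hs => hL3 W hW s hs, hL2⟩

/-- Every elliptic curve over `ℚ(i)` with `j = 1728` is isomorphic to `y² = x³ + D x` for exactly one
`D` that no fourth power of a prime divides. -/
theorem classification {K : Type} [Field K] [NumberField K] (e : GaussianInt ≃+* 𝓞 K)
    (E : WeierstrassCurve K) [E.IsElliptic] (hj : E.j = 1728) :
    ∃! D : GaussianInt, FourthPowerFree D ∧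
      ∃ C : WeierstrassCurve.VariableChange K, C • E = curve e D := by
  letI : Algebra GaussianInt K := ((algebraMap (𝓞 K) K).comp (e : GaussianInt →+* 𝓞 K)).toAlgebra
  haveI : IsFractionRing GaussianInt K := IsFractionRing.of_ringEquiv_left e (fun _ => rfl)
  exact Pool.Agent.Y699.cls1728 E hj

theorem family_finite (X : ℕ) : (Family X).Finite := by
  refine (Pool.Agent.Y699.fin_norm_le X).subset ?_
  rintro D ⟨-, h⟩
  have h0 := GaussianInt.norm_nonneg D
  show D.norm.natAbs ≤ X
  omega

/-- There are at most `9 X` parameters of norm at most `X`. -/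
theorem family_le {X : ℕ} (hX : 1 ≤ X) : (Family X).ncard ≤ 9 * X := by
  classical
  set s := Nat.sqrt X with hs
  have hs1 : 1 ≤ s := Nat.le_sqrt.2 (by omega)
  set B : Finset (ℤ × ℤ) := (Finset.Icc (-(s : ℤ)) s) ×ˢ (Finset.Icc (-(s : ℤ)) s) with hB
  have hinj : Set.InjOn (fun D : GaussianInt => (D.re, D.im)) (Family X) := by
    intro a _ b _ hab
    simp only [Prod.mk.injEq] at hab
    exact Zsqrtd.ext hab.1 hab.2
  have hmaps : ∀ D ∈ Family X, (fun D : GaussianInt => (D.re, D.im)) D ∈ (B : Set (ℤ × ℤ)) := by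
    rintro D ⟨-, h⟩
    have h1 : D.norm = D.re ^ 2 + D.im ^ 2 := by
      rw [Zsqrtd.norm_def]; ring
    have h4 : D.re.natAbs ≤ s := by
      rw [hs, Nat.le_sqrt']; zify; rw [sq_abs]; nlinarith [sq_nonneg D.im]
    have h5 : D.im.natAbs ≤ s := by
      rw [hs, Nat.le_sqrt']; zify; rw [sq_abs]; nlinarith [sq_nonneg D.re]
    rw [hB, Finset.mem_coe, Finset.mem_product, Finset.mem_Icc, Finset.mem_Icc]
    refine ⟨⟨?_, ?_⟩, ⟨?_, ?_⟩⟩ <;> simp only <;> omega
  have h1 := Set.ncard_le_ncard_of_injOn _ hmaps hinj (Finset.finite_toSet B)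
  rw [Set.ncard_coe_finset] at h1
  refine h1.trans ?_
  have h2 : (Finset.Icc (-(s : ℤ)) s).card = 2 * s + 1 := by
    rw [Int.card_Icc]; omega
  rw [hB, Finset.card_product, h2]
  have h3 : s * s ≤ X := Nat.sqrt_le X
  nlinarith

/-- **Main theorem.**  Let `K = ℚ(i)`.  There is `c > 0` such that for all large `X` at least the
proportion `c` of all Gaussian integers `D` of norm at most `X` that no fourth power of a prime divides,
and at least `c X` of them, have the property that for `E_D : y² = x³ + D x` over `K` the 2-primary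
part of `Ш(E_D/K)` is trivial, `E_D(K)` has exactly two elements and `L(E_D/K, s)` is entire with
`L(E_D/K, 1) ≠ 0`.  By the theorem `classification` these `D` are the isomorphism classes of the
elliptic curves over `K` with `j`-invariant `1728`. -/
theorem result : ∃ c : ℝ, 0 < c ∧ ∃ X₀ : ℕ, ∀ X : ℕ, X₀ ≤ X →
    c * ((Family X).ncard : ℝ) ≤ ((Proved X).ncard : ℝ) ∧ c * X ≤ ((Proved X).ncard : ℝ) := by
  obtain ⟨c, hc, X₀, h⟩ := Pool.Agent.Y699.positive₄
  have key : ∀ X : ℕ, X₀ ≤ X → c * X ≤ ((Proved X).ncard : ℝ) := by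
    intro X hX
    refine (h X hX).trans ?_
    have h1 : ((Pool.Agent.Y699.GB₄ X : Finset GaussianInt) : Set GaussianInt) ⊆ Proved X := by
      intro D hD
      have h2 : D ∈ Pool.Agent.Y699.SB X ∧ Pool.Agent.Y699.Good4 D := by
        have h0 := Finset.mem_coe.1 hD
        unfold Pool.Agent.Y699.GB₄ at h0
        classical
        exact Finset.mem_filter.1 h0
      have h3 := (Pool.Agent.Y699.mem_SB).1 h2.1
      refine ⟨⟨⟨h3.2.ne, fun π hπ h5 => ?_⟩, ?_⟩, fun K _ _ e => curve_good h2.2 K e⟩
      · exact hπ.not_isUnit (h3.2.sqf π (dvd_trans ⟨π ^ 2, by ring⟩ h5))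
      · have h4 : D.norm.natAbs ≤ X := h3.1
        omega
    have h5 := Set.ncard_le_ncard h1 ((family_finite X).subset fun D hD => hD.1)
    rw [Set.ncard_coe_finset] at h5
    exact_mod_cast h5
  refine ⟨c / 9, by positivity, max X₀ 1, fun X hX => ?_⟩
  have hX0 : X₀ ≤ X := (le_max_left _ _).trans hX
  have hX1 : 1 ≤ X := (le_max_right _ _).trans hX
  have h1 := key X hX0
  have h2 : ((Family X).ncard : ℝ) ≤ 9 * X := by exact_mod_cast family_le hX1
  have h3 : (0 : ℝ) ≤ X := Nat.cast_nonneg X
  constructor
  · calc c / 9 * ((Family X).ncard : ℝ) ≤ c / 9 * (9 * X) :=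
          mul_le_mul_of_nonneg_left h2 (by positivity)
      _ = c * X := by ring
      _ ≤ _ := h1
  · calc c / 9 * (X : ℝ) ≤ c * X := by nlinarith
      _ ≤ _ := h1

end Pool.Agent.Results.MP_78d38b_nt.PositiveProportionSha
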