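import Mathlib
import Pool.Agent.Y723.QT.Crv
import Pool.Agent.Y723.QT.MainD
import Pool.Agent.Y676.Tsm
import Pool.Agent.Y660.TS.Rnk
import Pool.Agent.Y660.TS.Mom
import Pool.Agent.Y46.KEY.Key
import Pool.Agent.Y667.RZ.Sha
import Pool.Agent.W307.RT.Tors

/-!
# Finiteness of the 2-primary part of `Ш(E/K)` for quadratic fields `K`

All the elliptic curves `E` over `ℚ` with full rational 2-torsion, ordered by height, and the
quadratic fields `K = ℚ(√(dq))` with `d ≠ 0` a fixed integer and `q` a prime of polylogarithmic size.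
For almost all `E` and a positive proportion of the primes `q` the rank of `E` does not change from
`ℚ` to `K`, and `Ш(E/K)[2^∞]` is finite if and only if `Ш(E/ℚ)[2^∞]` is; for a positive proportion of
the `E` (independent of `d`) and a positive proportion of the `q` the group `Ш(E/K)[2^∞]` is finite and
the rank of `E(K)` is zero.
-/

set_option autoImplicit false

namespace Pool.Agent.Results.MP_78d38b_nt.QuadraticFieldsTwoPart

open Finset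

/-- the curve `y² = x³ + A x + B` over `K`, `c = (A, B)` -/
def E (K : Type) [Field K] (c : ℤ × ℤ) : WeierstrassCurve K := ⟨0, 0, 0, (c.1 : K), (c.2 : K)⟩

/-- the quadratic twist by `d` of the curve `y² = x³ + A x + B`, `c = (A, B)` -/
def Tw (K : Type) [Field K] (d : ℤ) (c : ℤ × ℤ) : WeierstrassCurve K :=
  E K (d ^ 2 * c.1, d ^ 3 * c.2)

open Classical in
/-- The pairs `(A, B)` of integers such that `4 A³ + 27 B² ≠ 0`, there is no prime `p` with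
`p⁴ ∣ A` and `p⁶ ∣ B`, the height `max (4 |A|³) (27 B²)` is at most `H`, and `Z/2 x Z/2` embeds in
the group of the rational points of `y² = x³ + A x + B`. (The bounds `|A|, |B| ≤ H` follow from the
bound of the height. Every elliptic curve over `ℚ` is isomorphic to `E ℚ (A, B)` for exactly one pair
with the first two properties.) -/
noncomputable def Fam (H : ℕ) : Finset (ℤ × ℤ) :=
  ((Icc (-(H : ℤ)) H) ×ˢ (Icc (-(H : ℤ)) H)).filter (fun c : ℤ × ℤ =>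
    4 * c.1 ^ 3 + 27 * c.2 ^ 2 ≠ 0 ∧ 4 * |c.1| ^ 3 ≤ H ∧ 27 * c.2 ^ 2 ≤ H ∧
    (∀ p : ℕ, p.Prime → ¬ ((p : ℤ) ^ 4 ∣ c.1 ∧ (p : ℤ) ^ 6 ∣ c.2)) ∧
    ∃ f : ZMod 2 × ZMod 2 →+ (E ℚ c).toAffine.Point, Function.Injective f)

/-- `K = ℚ(√d)` -/
def IsSqrtField (d : ℤ) (K : Type) [Field K] [NumberField K] : Prop :=
  ∃ r : K, r ^ 2 = (d : K) ∧ IntermediateField.adjoin ℚ {r} = ⊤

/-- the elements of 2-power order form a finite group -/
def TwoPrimaryFinite (G : Type) [AddCommGroup G] : Prop :=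
  {x : G | ∃ k : ℕ, (2 ^ k : ℕ) • x = 0}.Finite

/-- For `K = ℚ(√m)`: `rank E(K) = rank E(ℚ)`, and `Ш(E/K)[2^∞]` is finite if and only if
`Ш(E/ℚ)[2^∞]` is finite. -/
def Same (m : ℤ) (c : ℤ × ℤ) : Prop :=
  ∀ (K : Type) [Field K] [NumberField K], IsSqrtField m K →
    Pool.Agent.TH841.NF.D.rk (E K c) = Pool.Agent.TH841.SH.D.rk (E ℚ c) ∧
    (TwoPrimaryFinite (Pool.Agent.TH841.NF.D.Sha (E K c)) ↔
      TwoPrimaryFinite (Pool.Agent.TH841.SH.D.Sha (E ℚ c)))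

/-- The rank over `K` is zero, `Ш(W/K)[2^∞]` is finite, and its elements are killed by two. -/
def Settled {K : Type} [Field K] [NumberField K] (W : WeierstrassCurve K) : Prop :=
  Pool.Agent.TH841.NF.D.rk W = 0 ∧ TwoPrimaryFinite (Pool.Agent.TH841.NF.D.Sha W) ∧
    ∀ (k : ℕ) (x : Pool.Agent.TH841.NF.D.Sha W), (2 ^ k : ℕ) • x = 0 → 2 • x = 0

/-- the curve `E` over `K = ℚ(√m)` is settled -/
def Good (m : ℤ) (c : ℤ × ℤ) : Prop :=
  ∀ (K : Type) [Field K] [NumberField K], IsSqrtField m K → Settled (E K c)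

/-- the twist of `E` by `m₁` over `K = ℚ(√(m₁ m₂))` (isomorphic to the twist of `E` by `m₂`) is
settled -/
def GoodPair (m₁ m₂ : ℤ) (c : ℤ × ℤ) : Prop :=
  ∀ (K : Type) [Field K] [NumberField K], IsSqrtField (m₁ * m₂) K → Settled (Tw K m₁ c)

open Classical in
/-- the number of the primes `q ≤ Q` such that `Same (d q) E` for all the curves of the tuple -/
noncomputable def countSame {k : ℕ} (d : ℤ) (Q : ℕ) (x : Fin k → ℤ × ℤ) : ℕ :=
  ((Icc 1 Q).filter (fun q : ℕ => q.Prime ∧ ∀ i, Same (d * q) (x i))).card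

open Classical in
/-- the number of the primes `q ≤ Q` such that `Good (d q) E` for all the curves of the tuple -/
noncomputable def countGood {k : ℕ} (d : ℤ) (Q : ℕ) (x : Fin k → ℤ × ℤ) : ℕ :=
  ((Icc 1 Q).filter (fun q : ℕ => q.Prime ∧ ∀ i, Good (d * q) (x i))).card

open Classical in
/-- the number of the pairs of different primes `q₁, q₂ ≤ Q` such that `GoodPair (d₁ q₁) (d₂ q₂) E`
for all the curves of the tuple -/
noncomputable def countPairs {k : ℕ} (d₁ d₂ : ℤ) (Q : ℕ) (x : Fin k → ℤ × ℤ) : ℕ :=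
  ((Icc 1 Q ×ˢ Icc 1 Q).filter (fun q : ℕ × ℕ => q.1.Prime ∧ q.2.Prime ∧ q.1 ≠ q.2 ∧
    ∀ i, GoodPair (d₁ * q.1) (d₂ * q.2) (x i))).card

lemma Fam_eq (H : ℕ) : Fam H = Pool.Agent.W307.RT.Cv 2 H := by
  classical
  unfold Fam Pool.Agent.W307.RT.Cv
  apply filter_congr
  intro c _
  have h : Pool.Agent.W307.RT.HasT 2 (Pool.Agent.W307.RT.Sh c.1 c.2) ↔
      ∃ f : ZMod 2 × ZMod 2 →+ (E ℚ c).toAffine.Point, Function.Injective f :=
    Pool.Agent.W307.RT.tors_iff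
  rw [h]

/-- a curve of the family: the discriminant and a root -/
lemma mem_fam {H : ℕ} {c : ℤ × ℤ} (hc : c ∈ Pool.Agent.W307.RT.Cv 2 H) :
    4 * c.1 ^ 3 + 27 * c.2 ^ 2 ≠ 0 ∧
    Pool.Agent.W307.RT.HasT 2 (Pool.Agent.W307.RT.Sh c.1 c.2) ∧
    ∃ e : ℤ, e ^ 3 + c.1 * e + c.2 = 0 := by
  classical
  obtain ⟨Φ, -, hΦ⟩ := Pool.Agent.W513.FK.parf
  unfold Pool.Agent.W307.RT.Cv at hc
  obtain ⟨_, a1, a2, _, _, a3⟩ := mem_filter.1 hc
  obtain ⟨-, -, -, -, -, e1, e2, e3, he, -, -⟩ := hΦ c a1 a3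
  refine ⟨a1, a3, e1, ?_⟩
  rw [he]
  ring

lemma tr_of {q : ℕ} {d : ℤ} {c : ℤ × ℤ} (h : Pool.Agent.Y676.Triv q (d ^ 2 * c.1, d ^ 3 * c.2)) :
    Pool.Agent.Y723.QT.Tr ((d * q) ^ 2 * c.1) ((d * q) ^ 3 * c.2) := by
  have e1 : (d * q) ^ 2 * c.1 = (q : ℤ) ^ 2 * (d ^ 2 * c.1) := by ring
  have e2 : (d * q) ^ 3 * c.2 = (q : ℤ) ^ 3 * (d ^ 3 * c.2) := by ring
  rw [e1, e2]
  refine ⟨h.1, fun k x hx => ?_⟩
  have h1 : Subsingleton (Pool.Agent.TH841.SH.D.ShaTor (Pool.Agent.W307.RT.Sh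
      ((q : ℤ) ^ 2 * (d ^ 2 * c.1)) ((q : ℤ) ^ 3 * (d ^ 3 * c.2))) (2 ^ k)) := h.2 k
  have h2 := @Subsingleton.elim _ h1 ⟨x, hx⟩ ⟨0, smul_zero _⟩
  rw [pow_zero, one_smul]
  exact congrArg Subtype.val h2

lemma same_of {H q : ℕ} {d : ℤ} {c : ℤ × ℤ} (hc : c ∈ Pool.Agent.W307.RT.Cv 2 H) (hq : q.Prime)
    (hd : d ≠ 0) (h : Pool.Agent.Y676.Triv q (d ^ 2 * c.1, d ^ 3 * c.2)) : Same (d * q) c := by
  obtain ⟨hD, -, e, he⟩ := mem_fam hc
  intro K _ _ hK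
  exact Pool.Agent.Y723.QT.stable hD he
    (mul_ne_zero hd (by exact_mod_cast hq.ne_zero)) (tr_of h) K hK

lemma good_of {H q : ℕ} {d : ℤ} {c : ℤ × ℤ} (hc : c ∈ Pool.Agent.W307.RT.Cv 2 H) (hq : q.Prime)
    (hd : d ≠ 0) (h0 : Pool.Agent.Y723.QT.Tr c.1 c.2)
    (h : Pool.Agent.Y676.Triv q (d ^ 2 * c.1, d ^ 3 * c.2)) : Good (d * q) c := by
  obtain ⟨hD, -, e, he⟩ := mem_fam hc
  intro K _ _ hK
  obtain ⟨h1, h2, h3⟩ := Pool.Agent.Y723.QT.triv2 hD he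
    (mul_ne_zero hd (by exact_mod_cast hq.ne_zero)) h0 (tr_of h) K hK
  exact ⟨h1, h2, fun k x hx => by have := h3 k x hx; rwa [pow_one] at this⟩

lemma pair_of {H q₁ q₂ : ℕ} {d₁ d₂ : ℤ} {c : ℤ × ℤ} (hc : c ∈ Pool.Agent.W307.RT.Cv 2 H)
    (hq₁ : q₁.Prime) (hq₂ : q₂.Prime) (hd₁ : d₁ ≠ 0) (hd₂ : d₂ ≠ 0)
    (h₁ : Pool.Agent.Y676.Triv q₁ (d₁ ^ 2 * c.1, d₁ ^ 3 * c.2))
    (h₂ : Pool.Agent.Y676.Triv q₂ (d₂ ^ 2 * c.1, d₂ ^ 3 * c.2)) :
    GoodPair (d₁ * q₁) (d₂ * q₂) c := by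
  obtain ⟨hD, -, e, he⟩ := mem_fam hc
  intro K _ _ hK
  obtain ⟨h1, h2, h3⟩ := Pool.Agent.Y723.QT.pairs hD he
    (mul_ne_zero hd₁ (by exact_mod_cast hq₁.ne_zero))
    (mul_ne_zero hd₂ (by exact_mod_cast hq₂.ne_zero)) (tr_of h₁) (tr_of h₂) K hK
  exact ⟨h1, h2, fun k x hx => by have := h3 k x hx; rwa [pow_one] at this⟩

open Classical in
/-- a positive proportion of the tuples -/
lemma many (k : ℕ) : ∃ δ : ℝ, 0 < δ ∧ ∃ H₀ : ℕ, ∀ H : ℕ, H₀ ≤ H →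
    δ * ((Fam H).card : ℝ) ^ k ≤ (((Pool.Agent.Y676.CT k H).filter (fun x : Fin k → ℤ × ℤ =>
      ∀ i, Pool.Agent.Y723.QT.Tr (x i).1 (x i).2)).card : ℝ) := by
  obtain ⟨c, hc, H0, h⟩ := Pool.Agent.Y667.RZ.curvesW
  refine ⟨c ^ k, by positivity, H0, fun H hH => ?_⟩
  have h1 : c * ((Fam H).card : ℝ) ≤ (((Pool.Agent.W307.RT.Cv 2 H).filter (fun t : ℤ × ℤ =>
      Pool.Agent.Y723.QT.Tr t.1 t.2)).card : ℝ) := by
    rw [Fam_eq]
    refine (h H hH).1.trans (Nat.cast_le.2 (card_le_card fun t ht => ?_))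
    rw [mem_filter] at ht ⊢
    obtain ⟨hD, hT, -⟩ := mem_fam ht.1
    obtain ⟨g1, g2⟩ := Pool.Agent.Y667.SHA.sha_zero4 hD hT ht.2.1 ht.2.2.1.le
    exact ⟨ht.1, g1, fun j x hx => by rw [pow_zero, one_smul]; exact g2 j x hx⟩
  have h2 : (Pool.Agent.Y676.CT k H).filter (fun x : Fin k → ℤ × ℤ =>
      ∀ i, Pool.Agent.Y723.QT.Tr (x i).1 (x i).2) =
      Fintype.piFinset (fun _ : Fin k => (Pool.Agent.W307.RT.Cv 2 H).filter (fun t : ℤ × ℤ =>
        Pool.Agent.Y723.QT.Tr t.1 t.2)) := by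
    ext x
    unfold Pool.Agent.Y676.CT
    simp only [mem_filter, Fintype.mem_piFinset]
    exact ⟨fun h i => ⟨h.1 i, h.2 i⟩, fun h => ⟨fun i => (h i).1, fun i => (h i).2⟩⟩
  rw [h2, Fintype.card_piFinset, prod_const, card_univ, Fintype.card_fin, ← mul_pow]
  push_cast
  exact pow_le_pow_left₀ (by positivity) h1 k

/-- a bound -/
lemma large {c : ℝ} (hc : 0 < c) : ∃ Q₀ : ℕ, ∀ Q : ℕ, Q₀ ≤ Q → 2 ≤ c * Q / Real.log Q := by
  have h1 := (Real.isLittleO_log_id_atTop.def (by positivity : (0 : ℝ) < c / 2))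
  have h2 := (tendsto_natCast_atTop_atTop (R := ℝ)).eventually h1
  obtain ⟨Q₁, hQ₁⟩ := Filter.eventually_atTop.1 h2
  refine ⟨max Q₁ 2, fun Q hQ => ?_⟩
  have h3 := hQ₁ Q ((le_max_left _ _).trans hQ)
  have hQ2 : (2 : ℝ) ≤ Q := by exact_mod_cast (le_max_right Q₁ 2).trans hQ
  have h4 : 0 < Real.log Q := Real.log_pos (by linarith)
  rw [le_div_iff₀ h4]
  simp only [id, Real.norm_eq_abs] at h3
  rw [abs_of_pos h4, abs_of_pos (by linarith : (0 : ℝ) < Q)] at h3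
  linarith

/-- the pairs of different elements -/
lemma pairs_card {S T : Finset ℕ} (hT : 2 ≤ T.card) :
    (S.card : ℝ) * T.card ≤ 2 * (((S ×ˢ T).filter (fun q : ℕ × ℕ => q.1 ≠ q.2)).card : ℝ) := by
  classical
  have h1 : S ×ˢ T ⊆ (S ×ˢ T).filter (fun q : ℕ × ℕ => q.1 ≠ q.2) ∪ S.image (fun q => (q, q)) := by
    rintro ⟨a, b⟩ h
    rw [mem_union, mem_filter, mem_image]
    by_cases hab : a = b
    · right
      subst hab
      exact ⟨a, (mem_product.1 h).1, rfl⟩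
    · exact Or.inl ⟨h, hab⟩
  have h2 := (card_le_card h1).trans ((card_union_le _ _).trans
    (Nat.add_le_add_left card_image_le _))
  rw [card_product] at h2
  have h3 : (S.card : ℝ) * T.card ≤
      (((S ×ˢ T).filter (fun q : ℕ × ℕ => q.1 ≠ q.2)).card : ℝ) + S.card := by exact_mod_cast h2
  have h4 : (2 : ℝ) ≤ T.card := by exact_mod_cast hT
  have h5 : (0 : ℝ) ≤ S.card := Nat.cast_nonneg _
  nlinarith

open Classical in
/-- **Theorem.** For every `k` there are constants `C` and `δ > 0` such that for all nonzero integers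
`d₁`, `d₂` and every `ε > 0` there is a constant `c > 0` such that for all large `H` and all
`Q ≥ (log H) ^ C` the following holds for the `k`-tuples of the elliptic curves over `ℚ` with full
rational 2-torsion and height at most `H`.
(1) For all but at most `ε * (#Fam H) ^ k` tuples there are at least `c * Q / log Q` primes `q ≤ Q`
such that over `K = ℚ(√(d₁ q))` all the curves `E` of the tuple have `rank E(K) = rank E(ℚ)`, and
`Ш(E/K)[2^∞]` is finite if and only if `Ш(E/ℚ)[2^∞]` is finite.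
(2) For at least `δ * (#Fam H) ^ k` tuples there are at least `c * Q / log Q` primes `q ≤ Q` such that
over `K = ℚ(√(d₁ q))` all the curves `E` of the tuple have rank `0` and `Ш(E/K)[2^∞]` is finite and
killed by `2`.
(3) For all but at most `ε * (#Fam H) ^ k` tuples there are at least `c * (Q / log Q) ^ 2` pairs of
different primes `q₁, q₂ ≤ Q` such that over `K = ℚ(√(d₁ q₁ d₂ q₂))` the twists `E'` by `d₁ q₁` of all
the curves of the tuple have rank `0` and `Ш(E'/K)[2^∞]` is finite and killed by `2`. -/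
theorem result : ∀ k : ℕ, ∃ (C : ℕ) (δ : ℝ), 0 < δ ∧ ∀ d₁ d₂ : ℤ, d₁ ≠ 0 → d₂ ≠ 0 →
    ∀ ε : ℝ, 0 < ε → ∃ c : ℝ, 0 < c ∧
    ∃ H₀ : ℕ, ∀ H : ℕ, H₀ ≤ H → ∀ Q : ℕ, (Real.log H) ^ C ≤ Q →
    (((Fintype.piFinset (fun _ : Fin k => Fam H)).filter (fun x : Fin k → ℤ × ℤ =>
      ¬ c * Q / Real.log Q ≤ (countSame d₁ Q x : ℝ))).card : ℝ) ≤ ε * ((Fam H).card : ℝ) ^ k ∧
    δ * ((Fam H).card : ℝ) ^ k ≤
      (((Fintype.piFinset (fun _ : Fin k => Fam H)).filter (fun x : Fin k → ℤ × ℤ =>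
        c * Q / Real.log Q ≤ (countGood d₁ Q x : ℝ))).card : ℝ) ∧
    (((Fintype.piFinset (fun _ : Fin k => Fam H)).filter (fun x : Fin k → ℤ × ℤ =>
      ¬ c * (Q / Real.log Q) ^ 2 ≤ (countPairs d₁ d₂ Q x : ℝ))).card : ℝ) ≤
        ε * ((Fam H).card : ℝ) ^ k := by
  intro k
  obtain ⟨δ, hδ, H₁, hδ1⟩ := many k
  refine ⟨Pool.Agent.Y676.CE k + 1, δ / 2, by positivity, fun d₁ d₂ hd₁ hd₂ ε hε => ?_⟩
  have main : ∀ d : ℤ, d ≠ 0 → ∃ c : ℝ, 0 < c ∧ ∃ H₂ : ℕ, ∀ H : ℕ, H₂ ≤ H → ∀ Q : ℕ,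
      (Real.log H) ^ (Pool.Agent.Y676.CE k + 1) ≤ Q →
      (((Pool.Agent.Y676.CT k H).filter (fun x => ¬ c * Q / Real.log Q ≤
        ((Pool.Agent.Y723.QT.TQD (fun _ => d) Q x).card : ℝ))).card : ℝ) ≤
        min (ε / 2) (δ / 2) * ((Fam H).card : ℝ) ^ k := by
    intro d hd
    simp only [Fam_eq]
    exact Pool.Agent.Y723.QT.mainD
      (Pool.Agent.Y46.KEY.key_of Pool.Agent.Y660.TS.rnk Pool.Agent.Y676.Tsm.tsm)
      Pool.Agent.Y660.TS.mom k (fun _ => d) (fun _ => hd) _ (lt_min (by positivity) (by positivity))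
  obtain ⟨c₁, hc₁, H₂, hm₁⟩ := main d₁ hd₁
  obtain ⟨c₂, hc₂, H₄, hm₂⟩ := main d₂ hd₂
  obtain ⟨Q₀, hQ₀⟩ := large hc₂
  have tL : Filter.Tendsto (fun X : ℕ => Real.log (X : ℝ)) Filter.atTop Filter.atTop :=
    Real.tendsto_log_atTop.comp tendsto_natCast_atTop_atTop
  obtain ⟨H₃, hH₃⟩ := Filter.eventually_atTop.1 ((tL.eventually_ge_atTop 1).and
    (tL.eventually_ge_atTop (Q₀ : ℝ)))
  obtain ⟨c, hcd⟩ : ∃ c : ℝ, c = min c₁ (c₁ * c₂ / 2) := ⟨_, rfl⟩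
  have hcc₁ : c ≤ c₁ := hcd ▸ min_le_left _ _
  have hcc₂ : c ≤ c₁ * c₂ / 2 := hcd ▸ min_le_right _ _
  refine ⟨c, hcd ▸ lt_min hc₁ (by positivity), H₁ + H₂ + H₃ + H₄, fun H hH Q hQ => ?_⟩
  obtain ⟨b1, b2⟩ := hH₃ H (by omega)
  have hQQ : Q₀ ≤ Q := by
    have e1 : Real.log H ≤ (Real.log H) ^ (Pool.Agent.Y676.CE k + 1) :=
      le_self_pow₀ b1 (by omega)
    have : (Q₀ : ℝ) ≤ Q := b2.trans (e1.trans hQ)
    exact_mod_cast this
  have h2 := hQ₀ Q hQQ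
  have hQl : 0 ≤ (Q : ℝ) / Real.log Q := by
    rcases Nat.eq_zero_or_pos Q with h | h
    · rw [h]; simp
    · exact div_nonneg (Nat.cast_nonneg _) (Real.log_nonneg (by exact_mod_cast h))
  have hN : (0 : ℝ) ≤ ((Fam H).card : ℝ) ^ k := by positivity
  have hm₁H := hm₁ H (by omega) Q hQ
  have hm₂H := hm₂ H (by omega) Q hQ
  obtain ⟨B₁, hB₁⟩ : ∃ B₁ : Finset (Fin k → ℤ × ℤ), B₁ = (Pool.Agent.Y676.CT k H).filter
    (fun x => ¬ c₁ * Q / Real.log Q ≤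
        ((Pool.Agent.Y723.QT.TQD (fun _ => d₁) Q x).card : ℝ)) := ⟨_, rfl⟩
  obtain ⟨B₂, hB₂⟩ : ∃ B₂ : Finset (Fin k → ℤ × ℤ), B₂ = (Pool.Agent.Y676.CT k H).filter
    (fun x => ¬ c₂ * Q / Real.log Q ≤
        ((Pool.Agent.Y723.QT.TQD (fun _ => d₂) Q x).card : ℝ)) := ⟨_, rfl⟩
  rw [← hB₁] at hm₁H
  rw [← hB₂] at hm₂H
  have hb₁ : (B₁.card : ℝ) ≤ ε / 2 * ((Fam H).card : ℝ) ^ k :=
    hm₁H.trans (mul_le_mul_of_nonneg_right (min_le_left _ _) hN)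
  have hb₁' : (B₁.card : ℝ) ≤ δ / 2 * ((Fam H).card : ℝ) ^ k :=
    hm₁H.trans (mul_le_mul_of_nonneg_right (min_le_right _ _) hN)
  have hb₂ : (B₂.card : ℝ) ≤ ε / 2 * ((Fam H).card : ℝ) ^ k :=
    hm₂H.trans (mul_le_mul_of_nonneg_right (min_le_left _ _) hN)
  have hεN : 0 ≤ ε * ((Fam H).card : ℝ) ^ k := mul_nonneg hε.le hN
  have hCT : (Fintype.piFinset (fun _ : Fin k => Fam H)) = Pool.Agent.Y676.CT k H := by
    unfold Pool.Agent.Y676.CT
    rw [Fam_eq]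
  have hc1 : ∀ n : ℕ, c₁ * Q / Real.log Q ≤ (n : ℝ) → c * Q / Real.log Q ≤ (n : ℝ) := by
    intro n hn
    refine le_trans ?_ hn
    rw [mul_div_assoc, mul_div_assoc]
    exact mul_le_mul_of_nonneg_right hcc₁ hQl
  have hmem : ∀ x ∈ Pool.Agent.Y676.CT k H, ∀ i, x i ∈ Pool.Agent.W307.RT.Cv 2 H := by
    intro x hx i
    unfold Pool.Agent.Y676.CT at hx
    exact Fintype.mem_piFinset.1 hx i
  have hTQ : ∀ (d : ℤ) (x : Fin k → ℤ × ℤ) (q : ℕ),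
      q ∈ Pool.Agent.Y723.QT.TQD (fun _ => d) Q x → q ∈ Icc 1 Q ∧ q.Prime ∧
        ∀ i, Pool.Agent.Y676.Triv q (d ^ 2 * (x i).1, d ^ 3 * (x i).2) := by
    intro d x q hq
    unfold Pool.Agent.Y723.QT.TQD at hq
    exact mem_filter.1 hq
  rw [hCT]
  refine ⟨?_, ?_, ?_⟩
  · have h3 : (((Pool.Agent.Y676.CT k H).filter (fun x : Fin k → ℤ × ℤ =>
        ¬ c * Q / Real.log Q ≤ (countSame d₁ Q x : ℝ))).card : ℝ) ≤ (B₁.card : ℝ) := by
      refine Nat.cast_le.2 (card_le_card fun x hx => ?_)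
      rw [mem_filter] at hx
      rw [hB₁, mem_filter]
      refine ⟨hx.1, fun h => hx.2 (hc1 _ (h.trans (Nat.cast_le.2 (card_le_card fun q hq => ?_))))⟩
      obtain ⟨g1, g2, g3⟩ := hTQ d₁ x q hq
      rw [mem_filter]
      exact ⟨g1, g2, fun i => same_of (hmem x hx.1 i) g2 hd₁ (g3 i)⟩
    linarith
  · have h3 := hδ1 H (by omega)
    have h4 : (((Pool.Agent.Y676.CT k H).filter (fun x : Fin k → ℤ × ℤ =>
        ∀ i, Pool.Agent.Y723.QT.Tr (x i).1 (x i).2)).card : ℝ) ≤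
        (((Pool.Agent.Y676.CT k H).filter (fun x : Fin k → ℤ × ℤ =>
          c * Q / Real.log Q ≤ (countGood d₁ Q x : ℝ))).card : ℝ) + (B₁.card : ℝ) := by
      rw [← Nat.cast_add]
      refine Nat.cast_le.2 ((card_le_card fun x hx => ?_).trans (card_union_le _ _))
      rw [mem_filter] at hx
      rw [mem_union, mem_filter, hB₁, mem_filter]
      by_cases h : c₁ * Q / Real.log Q ≤ ((Pool.Agent.Y723.QT.TQD (fun _ => d₁) Q x).card : ℝ)
      · left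
        refine ⟨hx.1, hc1 _ (h.trans (Nat.cast_le.2 (card_le_card fun q hq => ?_)))⟩
        obtain ⟨g1, g2, g3⟩ := hTQ d₁ x q hq
        rw [mem_filter]
        exact ⟨g1, g2, fun i => good_of (hmem x hx.1 i) g2 hd₁ (hx.2 i) (g3 i)⟩
      · exact Or.inr ⟨hx.1, h⟩
    linarith
  · have h3 : (((Pool.Agent.Y676.CT k H).filter (fun x : Fin k → ℤ × ℤ =>
        ¬ c * (Q / Real.log Q) ^ 2 ≤ (countPairs d₁ d₂ Q x : ℝ))).card : ℝ) ≤
        (B₁.card : ℝ) + (B₂.card : ℝ) := by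
      rw [← Nat.cast_add]
      refine Nat.cast_le.2 ((card_le_card fun x hx => ?_).trans (card_union_le _ _))
      rw [mem_filter] at hx
      rw [mem_union, hB₁, hB₂, mem_filter, mem_filter]
      by_contra hcon
      push Not at hcon
      obtain ⟨n1, n2⟩ := hcon
      have g1 := n1 hx.1
      have g2 := n2 hx.1
      apply hx.2
      obtain ⟨S, hS⟩ : ∃ S, S = Pool.Agent.Y723.QT.TQD (fun _ => d₁) Q x := ⟨_, rfl⟩
      obtain ⟨S', hS'⟩ : ∃ S', S' = Pool.Agent.Y723.QT.TQD (fun _ => d₂) Q x := ⟨_, rfl⟩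
      rw [← hS] at g1
      rw [← hS'] at g2
      have h4 : (((S ×ˢ S').filter (fun q : ℕ × ℕ => q.1 ≠ q.2)).card : ℝ) ≤
          (countPairs d₁ d₂ Q x : ℝ) := by
        refine Nat.cast_le.2 (card_le_card fun q hq => ?_)
        rw [mem_filter, mem_product, hS, hS'] at hq
        obtain ⟨⟨g3, g4⟩, g5⟩ := hq
        obtain ⟨i1, i2, i3⟩ := hTQ d₁ x q.1 g3
        obtain ⟨j1, j2, j3⟩ := hTQ d₂ x q.2 g4
        rw [mem_filter, mem_product]
        exact ⟨⟨i1, j1⟩, i2, j2, g5,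
          fun i => pair_of (hmem x hx.1 i) i2 j2 hd₁ hd₂ (i3 i) (j3 i)⟩
      have h5 : 2 ≤ S'.card := by
        have : (2 : ℝ) ≤ S'.card := h2.trans g2
        exact_mod_cast this
      have h6 := pairs_card (S := S) h5
      have h7 : (c₁ * (Q / Real.log Q)) * (c₂ * (Q / Real.log Q)) ≤ (S.card : ℝ) * S'.card := by
        rw [← mul_div_assoc, ← mul_div_assoc]
        exact mul_le_mul g1 g2 (by rw [mul_div_assoc]; exact mul_nonneg hc₂.le hQl)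
          (Nat.cast_nonneg _)
      have h8 : c * (Q / Real.log Q) ^ 2 ≤ c₁ * c₂ / 2 * (Q / Real.log Q) ^ 2 :=
        mul_le_mul_of_nonneg_right hcc₂ (sq_nonneg _)
      nlinarith
    linarith

end Pool.Agent.Results.MP_78d38b_nt.QuadraticFieldsTwoPart
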