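import Mathlib
import Pool.Agent.Y682.StabH
import Pool.Agent.Y682.YQ.Inr
import Pool.Agent.Y682.XD.Fin
import Pool.Agent.Y419.XD.Ram

/-!
# Curves with a rational point of order two in totally real fields of odd degree, and in all the
# layers of the cyclotomic `ℤ₃`-extension

`E : y² = x³ + A x² + B x` with integers `A`, `B`, not both `4 ∣ A` and `16 ∣ B` (every elliptic
curve over `ℚ` with a rational point `T` of order two has such a model with `T = (0, 0)`). Under
one condition on the pair `(E, T)`, comparing its behaviour at `∞` and at `2`, the 2-primary part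
of `Ш(E)` and the rank do not change from `ℚ` to any totally real field `K` of odd degree and odd
narrow class number in which `2` is inert and that satisfies a condition at the bad primes of `E`.

All the layers `K` of the cyclotomic `ℤ₃`-extension of `ℚ` satisfy the conditions on the field (that the
narrow class number is odd is proved with the analytic class number formula modulo two), and the
condition at the bad primes holds if they are `3` or `2, 4, 5, 7` modulo `9`.  So for these curves, of any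
rank, the 2-primary part of `Ш(E/K)` and the rank of `E(K)` are the same in the whole tower.
-/

set_option autoImplicit false

namespace Pool.Agent.Results.MP_78d38b_nt.TwoTorsionStability

open NumberField IsDedekindDomain

open Pool.Agent.Y682 (NCl)

/-- `A`, `B` are the coefficients of a curve `E : y² = x³ + A x² + B x`, not both `4 ∣ A` and
`16 ∣ B`, with opposite types of the isogeny by `(0, 0)` at `∞` and at `2` : `B > 0` and
(`A < 0` or `A² < 4B`) holds if and only if `A` is odd or `4` does not divide `(A/2)² - B`. -/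
def Pair (A B : ℤ) : Prop := B ≠ 0 ∧ A ^ 2 ≠ 4 * B ∧ ¬ (4 ∣ A ∧ 16 ∣ B) ∧
  ((0 < B ∧ (A < 0 ∨ A ^ 2 < 4 * B)) ↔ (¬ 2 ∣ A ∨ ¬ 4 ∣ (A / 2) ^ 2 - B))

/-- The exceptional case at `2`: `A = 3 mod 4` and `B = 2` or `3 mod 4`, or `A = 2 mod 8` and
`(A/2)² - B = 8, 9, …, 15 mod 16`. -/
def Exc (A B : ℤ) : Prop := (A % 4 = 3 ∧ 2 ≤ B % 4) ∨ (A % 8 = 2 ∧ 8 ≤ ((A / 2) ^ 2 - B) % 16)

/-- The condition on `K` at a bad prime `p`: there is only one prime of `K` above `p`, or `p` is odd
and there are integers `d ≠ 0`, `α`, `β` with `A = d α`, `B = d² β` such that `β` and `α² - 4 β` are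
not squares modulo any prime of `K` above `p`. -/
def AtBad (K : Type) [Field K] [NumberField K] (A B : ℤ) (p : ℕ) : Prop :=
  (∀ v w : HeightOneSpectrum (𝓞 K), (p : 𝓞 K) ∈ v.asIdeal → (p : 𝓞 K) ∈ w.asIdeal → v = w) ∨
  (p ≠ 2 ∧ ∃ d α β : ℤ, d ≠ 0 ∧ A = d * α ∧ B = d ^ 2 * β ∧
    ∀ v : HeightOneSpectrum (𝓞 K), (p : 𝓞 K) ∈ v.asIdeal → ∀ x : 𝓞 K,
      x ^ 2 - (β : 𝓞 K) ∉ v.asIdeal ∧ x ^ 2 - ((α ^ 2 - 4 * β : ℤ) : 𝓞 K) ∉ v.asIdeal)

/-- For the curve `E : y² = x³ + A x² + B x`: `Ш(E/K)[2^∞] ≃ Ш(E/ℚ)[2^∞]` and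
`rank E(K) = rank E(ℚ)`. -/
def Stable (K : Type) [Field K] [NumberField K] (A B : ℤ) : Prop :=
  Nonempty
    (AddCommGroup.primaryComponent
        (Pool.Agent.TH841.NF.D.Sha (⟨0, A, 0, B, 0⟩ : WeierstrassCurve K)) 2 ≃+
      AddCommGroup.primaryComponent
        (Pool.Agent.TH841.SH.D.Sha (⟨0, A, 0, B, 0⟩ : WeierstrassCurve ℚ)) 2) ∧
  Pool.Agent.TH841.NF.D.rk (⟨0, A, 0, B, 0⟩ : WeierstrassCurve K) =
    Pool.Agent.TH841.SH.D.rk (⟨0, A, 0, B, 0⟩ : WeierstrassCurve ℚ)

lemma stable_of {K : Type} [Field K] [NumberField K] [IsTotallyReal K]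
    (hdeg : Odd (Module.finrank ℚ K)) (hcl : Odd (Nat.card (NCl K)))
    (h2 : (Ideal.span {(2 : 𝓞 K)}).IsPrime)
    {A B : ℤ} (h : Pair A B) (h3 : 3 ∣ Module.finrank ℚ K → ¬ Exc A B)
    (hbad : ∀ p : ℕ, p.Prime → (p : ℤ) ∣ B * (A ^ 2 - 4 * B) → AtBad K A B p) : Stable K A B := by
  obtain ⟨hB, hD, hred, htype⟩ := h
  exact (@Pool.Agent.Y682.stabH K _ _ _ DivisionRing.toRatAlgebra inferInstance A B hB hD hred htype
    (fun h => ⟨fun h' => h3 h (Or.inl h'), fun h' => h3 h (Or.inr h')⟩) h2 hcl hdeg hbad).symm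

/-- **Theorem.** Let `A`, `B` be the coefficients of a curve `E : y² = x³ + A x² + B x` with opposite
types at `∞` and at `2`.
(1) Let `K` be a totally real number field of odd degree and odd narrow class number such that the ideal
`(2)` of the ring of integers is prime, and such that the condition `AtBad` holds for the bad primes.
If `3` divides the degree of `K`, suppose moreover that the pair is not exceptional at `2`.  Then
`Ш(E/K)[2^∞] ≃ Ш(E/ℚ)[2^∞]` and `rank E(K) = rank E(ℚ)`.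
(2) This holds for all the layers `K` of the cyclotomic `ℤ₃`-extension of `ℚ` (the subfields of odd
degree of the `3 ^ (n + 1)`-th cyclotomic fields) without an assumption on `K`, if the pair is not exceptional
at `2` and each prime factor `p` of `B (A² - 4B)` is `3` or `2, 4, 5, 7` modulo `9`, or satisfies
`AtBad`. -/
theorem result (A B : ℤ) (h : Pair A B) :
    (∀ (K : Type) [Field K] [NumberField K] [IsTotallyReal K],
      Odd (Module.finrank ℚ K) → Odd (Nat.card (NCl K)) → (Ideal.span {(2 : 𝓞 K)}).IsPrime →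
      (3 ∣ Module.finrank ℚ K → ¬ Exc A B) →
      (∀ p : ℕ, p.Prime → (p : ℤ) ∣ B * (A ^ 2 - 4 * B) → AtBad K A B p) → Stable K A B) ∧
    (¬ Exc A B → ∀ (n : ℕ) (M : Type) [Field M] [NumberField M]
      [IsCyclotomicExtension {3 ^ (n + 1)} ℚ M] (K : IntermediateField ℚ M),
      Odd (Module.finrank ℚ K) →
      (∀ p : ℕ, p.Prime → (p : ℤ) ∣ B * (A ^ 2 - 4 * B) →
        p = 3 ∨ p % 9 = 2 ∨ p % 9 = 4 ∨ p % 9 = 5 ∨ p % 9 = 7 ∨ AtBad K A B p) → Stable K A B) := by
  refine ⟨fun K _ _ _ hdeg hcl h2 h3 hbad => stable_of hdeg hcl h2 h h3 hbad,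
    fun hE n M _ _ _ K hodd hbad => ?_⟩
  obtain ⟨h2, -, hN⟩ := Pool.Agent.Y682.XD.three_hyp n M K hodd
  have hz : NeZero (3 ^ (n + 1)) := ⟨pow_ne_zero _ (by norm_num)⟩
  have hreal : IsTotallyReal K := by
    obtain ⟨φ', -⟩ := Pool.Agent.Y682.XT.exists_phi (3 ^ (n + 1)) M
    have hre : Pool.Agent.Y682.XT.IsRe (3 ^ (n + 1)) M K := Pool.Agent.Y682.XT.re_of_odd hodd
    exact ⟨Pool.Agent.Y682.XT.real_place (q := 3 ^ (n + 1)) (φ := φ') hre⟩
  refine stable_of hodd hN (by exact_mod_cast h2) h (fun _ => hE) fun p hp hpd => ?_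
  have hin : (p % 9 = 2 ∨ p % 9 = 4 ∨ p % 9 = 5 ∨ p % 9 = 7) → AtBad K A B p := by
    intro h9
    left
    intro v w hv hw
    obtain ⟨u, -, hu⟩ := Pool.Agent.Y682.XT.place_unique hp
      (Pool.Agent.Y682.YQ.inert9 n M K hodd hp h9)
    rw [(hu v).1 hv, (hu w).1 hw]
  rcases hbad p hp hpd with h3 | h9 | h9 | h9 | h9 | h9
  · subst h3
    left
    exact fun v w hv hw => Pool.Agent.Y419.XD.s_ram 3 n Nat.prime_three M K v w hv hw
  · exact hin (Or.inl h9)
  · exact hin (Or.inr (Or.inl h9))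
  · exact hin (Or.inr (Or.inr (Or.inl h9)))
  · exact hin (Or.inr (Or.inr (Or.inr h9)))
  · exact h9

end Pool.Agent.Results.MP_78d38b_nt.TwoTorsionStability
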